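import Pool.Agent.Lib.TRD.GMain
import Pool.Agent.Lib.TRD.CodeUpper

set_option autoImplicit false

/-!
How many cards can be discarded from the deck of a tree on `p` points so that the tree is still
determined among the trees: the exact number for every `p ≥ 10 ^ 10`.
-/

namespace Pool.Agent.Results.MP_2e3d39_co.ExactLargeP

open TRD

/-- For every `p ≥ 10 ^ 10`, the largest `k ≤ p - 1` such that every tree on `p` points is
reconstructible (among the trees on `p` points) after `k` discards is
`p - 1 - 2 * ⌊(p - 5) / 3⌋`. -/
theorem result (p : ℕ) (hp : 10 ^ 10 ≤ p) :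
    IsGreatest {k : ℕ | k ≤ p - 1 ∧ ∀ T : SimpleGraph (Fin p), T.IsTree → Recon k T}
      (p - 1 - 2 * ((p - 5) / 3)) :=
  graph_main p (by omega) fun x y hx hy h D hD hD' => code_upper p hp x y hx hy h D hD hD'

end Pool.Agent.Results.MP_2e3d39_co.ExactLargeP
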